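import Mathlib
import Pool.Agent.V11310.TMFib
import Pool.Agent.V11310.TMFib2

namespace Pool.Agent.Results.MP_e68cb8_nt.LiminfReading

open Pool.Agent.V11310.TMFib Filter

/-- `ρ_n = |h_n| / |h_{n-1}|` -/
noncomputable def ρ (n : ℕ) : ℝ := |(h n : ℝ)| / |(h (n - 1) : ℝ)|

lemma absR (n : ℕ) : |(h n : ℝ)| = ((|h n| : ℤ) : ℝ) := by push_cast; rfl

lemma XR (l : ℕ) : (((XY l).1 : ℤ) : ℝ) = (z l : ℝ) * ((XY l).2 : ℝ) := by
  have := X_eq l
  exact_mod_cast this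

lemma YR (l : ℕ) : (1 : ℝ) ≤ ((XY l).2 : ℝ) := by exact_mod_cast (XY_nonneg l).2

lemma a0 (l : ℕ) : |(h (8 * l) : ℝ)| = z l * ((XY l).2 : ℝ) := by
  rw [absR, show 8 * l = 2 * (4 * l) by ring, abs_h_even, (e_block l).1, XR]

lemma a1 (l : ℕ) (hl : 1 ≤ l) : |(h (8 * l + 1) : ℝ)| = ((XY l).2 : ℝ) := by
  obtain ⟨m, rfl⟩ : ∃ m, l = m + 1 := ⟨l - 1, by omega⟩
  rw [absR, show 8 * (m + 1) + 1 = 2 * (4 * m + 3) + 3 by ring, abs_h_odd, (e_block m).2.2.2]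
  rfl

lemma a2 (l : ℕ) : |(h (8 * l + 2) : ℝ)| = (z l + 1) * ((XY l).2 : ℝ) := by
  rw [absR, show 8 * l + 2 = 2 * (4 * l + 1) by ring, abs_h_even, (e_block l).2.1]
  push_cast
  rw [XR]; ring

lemma a3 (l : ℕ) : |(h (8 * l + 3) : ℝ)| = z l * ((XY l).2 : ℝ) := by
  rw [absR, show 8 * l + 3 = 2 * (4 * l) + 3 by ring, abs_h_odd, (e_block l).1, XR]

lemma a4 (l : ℕ) : |(h (8 * l + 4) : ℝ)| = ((XY l).2 : ℝ) := by
  rw [absR, show 8 * l + 4 = 2 * (4 * l + 2) by ring, abs_h_even, (e_block l).2.2.1]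

lemma a5 (l : ℕ) : |(h (8 * l + 5) : ℝ)| = (z l + 1) * ((XY l).2 : ℝ) := by
  rw [absR, show 8 * l + 5 = 2 * (4 * l + 1) + 3 by ring, abs_h_odd, (e_block l).2.1]
  push_cast
  rw [XR]; ring

lemma a6 (l : ℕ) : |(h (8 * l + 6) : ℝ)| = (z l + 2) * ((XY l).2 : ℝ) := by
  rw [absR, show 8 * l + 6 = 2 * (4 * l + 3) by ring, abs_h_even, (e_block l).2.2.2]
  push_cast
  rw [XR]; ring

lemma a7 (l : ℕ) : |(h (8 * l + 7) : ℝ)| = ((XY l).2 : ℝ) := by
  rw [absR, show 8 * l + 7 = 2 * (4 * l + 2) + 3 by ring, abs_h_odd, (e_block l).2.2.1]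

lemma z_le' (l : ℕ) (hl : 2 ≤ l) : (1 / 2 : ℝ) ≤ z l ∧ (z l : ℝ) ≤ 7 / 5 := by
  obtain ⟨m, rfl⟩ : ∃ m, l = m + 1 := ⟨l - 1, by omega⟩
  have h0 : (1 / 2 : ℚ) ≤ z (m + 1) := (z_bounds (m + 1) (by omega)).1
  have h1 : (1 / 2 : ℚ) ≤ z m := (z_bounds m (by omega)).1
  have h2 : z (m + 1) ≤ (7 / 5 : ℚ) := by
    rw [z_succ]
    have h3 : 1 / (z m + 2) ≤ 2 / 5 := by
      rw [div_le_div_iff₀ (by linarith) (by norm_num)]; linarith
    have h4 : 0 < 1 / (z m + 2) := by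
      apply one_div_pos.2; linarith
    rcases p_pm (m + 1) (by omega) with h | h <;> rw [h] <;> push_cast
    · linarith
    · rw [neg_div]; linarith
  constructor
  · have : ((1 / 2 : ℚ) : ℝ) ≤ z (m + 1) := by exact_mod_cast h0
    norm_num at this ⊢
    exact this
  · have : ((z (m + 1) : ℚ) : ℝ) ≤ ((7 / 5 : ℚ) : ℝ) := by exact_mod_cast h2
    norm_num at this
    exact this

lemma ρ_bounds (n : ℕ) (hn : 8 ≤ n) : 5 / 17 ≤ ρ (2 * n + 1) ∧ ρ (2 * n + 1) ≤ 5 / 2 := by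
  obtain ⟨l, j, hj, rfl⟩ : ∃ l j, j < 4 ∧ n = 4 * l + j :=
    ⟨n / 4, n % 4, Nat.mod_lt _ (by norm_num), (Nat.div_add_mod n 4).symm⟩
  obtain ⟨h1, h2⟩ := z_le' l (by omega)
  have hY := YR l
  have hY0 : (0 : ℝ) < ((XY l).2 : ℝ) := by linarith
  interval_cases j
  · have : ρ (2 * (4 * l + 0) + 1) = 1 / z l := by
      rw [ρ, show 2 * (4 * l + 0) + 1 = 8 * l + 1 by ring, Nat.add_sub_cancel,
        a1 l (by omega), a0]
      field_simp
    rw [this]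
    constructor
    · rw [div_le_div_iff₀ (by norm_num) (by linarith)]; linarith
    · rw [div_le_div_iff₀ (by linarith) (by norm_num)]; linarith
  · have : ρ (2 * (4 * l + 1) + 1) = z l / (z l + 1) := by
      rw [ρ, show 2 * (4 * l + 1) + 1 = 8 * l + 3 by ring, show 8 * l + 3 - 1 = 8 * l + 2 by omega,
        a3, a2]
      field_simp
    rw [this]
    constructor
    · rw [div_le_div_iff₀ (by norm_num) (by linarith)]; linarith
    · rw [div_le_div_iff₀ (by linarith) (by norm_num)]; linarith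
  · have : ρ (2 * (4 * l + 2) + 1) = z l + 1 := by
      rw [ρ, show 2 * (4 * l + 2) + 1 = 8 * l + 5 by ring, show 8 * l + 5 - 1 = 8 * l + 4 by omega,
        a5, a4]
      field_simp
    rw [this]
    constructor <;> linarith
  · have : ρ (2 * (4 * l + 3) + 1) = 1 / (z l + 2) := by
      rw [ρ, show 2 * (4 * l + 3) + 1 = 8 * l + 7 by ring, show 8 * l + 7 - 1 = 8 * l + 6 by omega,
        a7, a6]
      field_simp
    rw [this]
    constructor
    · rw [div_le_div_iff₀ (by norm_num) (by linarith)]; linarith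
    · rw [div_le_div_iff₀ (by linarith) (by norm_num)]; linarith

/-- `liminf_n ρ_{2n+1} > 2/7`. -/
theorem result : (2 / 7 : ℝ) < Filter.liminf (fun n : ℕ => ρ (2 * n + 1)) atTop := by
  have h1 : (5 / 17 : ℝ) ≤ Filter.liminf (fun n : ℕ => ρ (2 * n + 1)) atTop := by
    apply le_liminf_of_le
    · have hb : IsBoundedUnder (· ≤ ·) atTop (fun n : ℕ => ρ (2 * n + 1)) :=
        isBoundedUnder_of_eventually_le (a := 5 / 2)
          (eventually_atTop.2 ⟨8, fun n hn => (ρ_bounds n hn).2⟩)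
      exact hb.isCoboundedUnder_ge
    · exact eventually_atTop.2 ⟨8, fun n hn => (ρ_bounds n hn).1⟩
  have h2 : (2 / 7 : ℝ) < 5 / 17 := by norm_num
  linarith

end Pool.Agent.Results.MP_e68cb8_nt.LiminfReading
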