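import Mathlib
import Pool.Agent.V11310.TMFib

namespace Pool.Agent.Results.MP_e68cb8_nt.RatioBound

open Pool.Agent.V11310.TMFib

lemma ratio_zero (l : ℕ) : 2 * (XY l).1 ≤ 3 * (XY l).2 := by
  rcases Nat.eq_zero_or_pos l with h | h
  · rw [h]; simp [XY]
  · exact (XY_ratio l h).2

lemma step_one (n : ℕ) (hn : 1 ≤ n) : 2 * e (n + 1) ≤ 7 * e n := by
  obtain ⟨l, j, hj, rfl⟩ : ∃ l j, j < 4 ∧ n = 4 * l + j :=
    ⟨n / 4, n % 4, Nat.mod_lt _ (by norm_num), (Nat.div_add_mod n 4).symm⟩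
  obtain ⟨i0, i1, i2, i3⟩ := e_block l
  obtain ⟨j0, j1, j2, j3⟩ := e_block (l + 1)
  have hp := XY_nonneg l
  have hr0 := ratio_zero l
  interval_cases j
  · have := (XY_ratio l (by omega)).1
    rw [add_zero, i0, i1]; linarith
  · rw [i1, show 4 * l + 1 + 1 = 4 * l + 2 by ring, i2]; linarith
  · rw [i2, show 4 * l + 2 + 1 = 4 * l + 3 by ring, i3]; linarith
  · rw [i3, show 4 * l + 3 + 1 = 4 * (l + 1) by ring, j0, XY_succ_fst]
    rcases p_pm (l + 1) (by omega) with h | h <;> rw [h] <;> linarith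

lemma step_two (n : ℕ) : 2 * e n ≤ 7 * e (n + 2) := by
  obtain ⟨l, j, hj, rfl⟩ : ∃ l j, j < 4 ∧ n = 4 * l + j :=
    ⟨n / 4, n % 4, Nat.mod_lt _ (by norm_num), (Nat.div_add_mod n 4).symm⟩
  obtain ⟨i0, i1, i2, i3⟩ := e_block l
  obtain ⟨j0, j1, j2, j3⟩ := e_block (l + 1)
  have hp := XY_nonneg l
  have hp' := XY_nonneg (l + 1)
  have hr0 := ratio_zero l
  interval_cases j
  · rw [add_zero, i0, i2]; linarith
  · rw [i1, show 4 * l + 1 + 2 = 4 * l + 3 by ring, i3]; linarith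
  · rw [i2, show 4 * l + 2 + 2 = 4 * (l + 1) by ring, j0, XY_succ_fst]
    rcases p_pm (l + 1) (by omega) with h | h <;> rw [h] <;> linarith
  · rw [i3, show 4 * l + 3 + 2 = 4 * (l + 1) + 1 by ring, j1]
    rw [XY_succ_snd] at *
    linarith

/-- `|h_n| ≥ (2/7) |h_{n-1}|` for every `n ≥ 4`. -/
theorem result (n : ℕ) (hn : 4 ≤ n) : (2 / 7 : ℚ) * |(h (n - 1) : ℚ)| ≤ |(h n : ℚ)| := by
  have key : 2 * |h (n - 1)| ≤ 7 * |h n| := by
    rcases Nat.even_or_odd' n with ⟨m, rfl | rfl⟩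
    · obtain ⟨l, rfl⟩ : ∃ l, m = l + 2 := ⟨m - 2, by omega⟩
      rw [abs_h_even, show 2 * (l + 2) - 1 = 2 * l + 3 by omega, abs_h_odd]
      exact step_two l
    · obtain ⟨l, rfl⟩ : ∃ l, m = l + 2 := ⟨m - 2, by omega⟩
      rw [show 2 * (l + 2) + 1 - 1 = 2 * (l + 2) by omega, abs_h_even,
        show 2 * (l + 2) + 1 = 2 * (l + 1) + 3 by ring, abs_h_odd]
      exact step_one (l + 1) (by omega)
  have key' : (2 : ℚ) * |(h (n - 1) : ℚ)| ≤ 7 * |(h n : ℚ)| := by exact_mod_cast key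
  linarith

end Pool.Agent.Results.MP_e68cb8_nt.RatioBound
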