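import Mathlib
import Pool.Agent.V11310.TMFib
import Pool.Agent.V11310.TMFib2

namespace Pool.Agent.Results.MP_e68cb8_nt.Refinement

open Pool.Agent.V11310.TMFib

/-- `ρ_n = |h_n| / |h_{n-1}|` -/
noncomputable def ρ (n : ℕ) : ℝ := |(h n : ℝ)| / |(h (n - 1) : ℝ)|

/-- `C_{k,i}`, the infimum of `ρ_{2^k n + i + 1}` over all `n ≥ 0` with `2^k n + i ≥ 4`. -/
noncomputable def C (k i : ℕ) : ℝ :=
  sInf {x : ℝ | ∃ n : ℕ, 4 ≤ 2 ^ k * n + i ∧ x = ρ (2 ^ k * n + i + 1)}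

/-! ### formulas for `ρ` -/

lemma absR (n : ℕ) : |(h n : ℝ)| = ((|h n| : ℤ) : ℝ) := by push_cast; rfl

lemma XR (l : ℕ) : (((XY l).1 : ℤ) : ℝ) = (z l : ℝ) * ((XY l).2 : ℝ) := by
  have := X_eq l
  exact_mod_cast this

lemma YR (l : ℕ) : (1 : ℝ) ≤ ((XY l).2 : ℝ) := by exact_mod_cast (XY_nonneg l).2

lemma a0 (l : ℕ) : |(h (8 * l) : ℝ)| = z l * ((XY l).2 : ℝ) := by
  rw [absR, show 8 * l = 2 * (4 * l) by ring, abs_h_even, (e_block l).1, XR]

lemma a1 (l : ℕ) (hl : 1 ≤ l) : |(h (8 * l + 1) : ℝ)| = ((XY l).2 : ℝ) := by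
  obtain ⟨m, rfl⟩ : ∃ m, l = m + 1 := ⟨l - 1, by omega⟩
  rw [absR, show 8 * (m + 1) + 1 = 2 * (4 * m + 3) + 3 by ring, abs_h_odd, (e_block m).2.2.2]
  rfl

lemma a2 (l : ℕ) : |(h (8 * l + 2) : ℝ)| = (z l + 1) * ((XY l).2 : ℝ) := by
  rw [absR, show 8 * l + 2 = 2 * (4 * l + 1) by ring, abs_h_even, (e_block l).2.1]
  push_cast
  rw [XR]; ring

lemma a3 (l : ℕ) : |(h (8 * l + 3) : ℝ)| = z l * ((XY l).2 : ℝ) := by
  rw [absR, show 8 * l + 3 = 2 * (4 * l) + 3 by ring, abs_h_odd, (e_block l).1, XR]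

lemma a4 (l : ℕ) : |(h (8 * l + 4) : ℝ)| = ((XY l).2 : ℝ) := by
  rw [absR, show 8 * l + 4 = 2 * (4 * l + 2) by ring, abs_h_even, (e_block l).2.2.1]

lemma a5 (l : ℕ) : |(h (8 * l + 5) : ℝ)| = (z l + 1) * ((XY l).2 : ℝ) := by
  rw [absR, show 8 * l + 5 = 2 * (4 * l + 1) + 3 by ring, abs_h_odd, (e_block l).2.1]
  push_cast
  rw [XR]; ring

lemma a6 (l : ℕ) : |(h (8 * l + 6) : ℝ)| = (z l + 2) * ((XY l).2 : ℝ) := by
  rw [absR, show 8 * l + 6 = 2 * (4 * l + 3) by ring, abs_h_even, (e_block l).2.2.2]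
  push_cast
  rw [XR]; ring

lemma a7 (l : ℕ) : |(h (8 * l + 7) : ℝ)| = ((XY l).2 : ℝ) := by
  rw [absR, show 8 * l + 7 = 2 * (4 * l + 2) + 3 by ring, abs_h_odd, (e_block l).2.2.1]

lemma a8 (l : ℕ) : |(h (8 * l + 8) : ℝ)| = (z l + 2 - p (l + 1)) * ((XY l).2 : ℝ) := by
  rw [show 8 * l + 8 = 8 * (l + 1) by ring, a0, ← XR, XY_succ_fst]
  push_cast
  rw [XR]; ring

lemma zR_nonneg (l : ℕ) : (0 : ℝ) ≤ z l := by exact_mod_cast z_nonneg l

lemma zR_pos (l : ℕ) (hl : 1 ≤ l) : (0 : ℝ) < z l := by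
  have h2 : (1 / 2 : ℚ) ≤ z l := (z_bounds l hl).1
  have h3 : (0 : ℚ) < z l := by linarith
  exact_mod_cast h3

lemma zR_le (l : ℕ) : (z l : ℝ) ≤ 3 / 2 := by
  have h2 : z l ≤ (3 / 2 : ℚ) := by
    rcases Nat.eq_zero_or_pos l with h | h
    · rw [h]; norm_num [z]
    · exact (z_bounds l h).2
  have h3 : ((z l : ℚ) : ℝ) ≤ ((3 / 2 : ℚ) : ℝ) := by exact_mod_cast h2
  norm_num at h3
  linarith

lemma ρ1 (l : ℕ) (hl : 1 ≤ l) : ρ (8 * l + 0 + 1) = 1 / z l := by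
  have h1 := zR_pos l hl
  have h2 := YR l
  rw [ρ, Nat.add_sub_cancel, add_zero, a1 l hl, a0]
  field_simp

lemma ρ2 (l : ℕ) (hl : 1 ≤ l) : ρ (8 * l + 1 + 1) = z l + 1 := by
  have h2 := YR l
  rw [ρ, Nat.add_sub_cancel, a1 l hl, show 8 * l + 1 + 1 = 8 * l + 2 by ring, a2]
  field_simp

lemma ρ3 (l : ℕ) : ρ (8 * l + 2 + 1) = 1 - 1 / (z l + 1) := by
  have h1 := zR_nonneg l
  have h2 := YR l
  rw [ρ, Nat.add_sub_cancel, a2, show 8 * l + 2 + 1 = 8 * l + 3 by ring, a3]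
  field_simp
  ring

lemma ρ4 (l : ℕ) (hl : 1 ≤ l) : ρ (8 * l + 3 + 1) = 1 / z l := by
  have h1 := zR_pos l hl
  have h2 := YR l
  rw [ρ, Nat.add_sub_cancel, a3, show 8 * l + 3 + 1 = 8 * l + 4 by ring, a4]
  field_simp

lemma ρ5 (l : ℕ) : ρ (8 * l + 4 + 1) = z l + 1 := by
  have h2 := YR l
  rw [ρ, Nat.add_sub_cancel, a4, show 8 * l + 4 + 1 = 8 * l + 5 by ring, a5]
  field_simp

lemma ρ6 (l : ℕ) : ρ (8 * l + 5 + 1) = 1 + 1 / (z l + 1) := by
  have h1 := zR_nonneg l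
  have h2 := YR l
  rw [ρ, Nat.add_sub_cancel, a5, show 8 * l + 5 + 1 = 8 * l + 6 by ring, a6]
  field_simp
  ring

lemma ρ7 (l : ℕ) : ρ (8 * l + 6 + 1) = 1 / (z l + 2) := by
  have h1 := zR_nonneg l
  have h2 := YR l
  rw [ρ, Nat.add_sub_cancel, a6, show 8 * l + 6 + 1 = 8 * l + 7 by ring, a7]
  field_simp

lemma ρ8 (l : ℕ) : ρ (8 * l + 7 + 1) = z l + 2 - p (l + 1) := by
  have h1 := zR_nonneg l
  have h2 := YR l
  rw [ρ, Nat.add_sub_cancel, a7, show 8 * l + 7 + 1 = 8 * l + 8 by ring, a8]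
  field_simp

/-- the minimum of `ρ` over the class exists -/
def HasMin (k i : ℕ) : Prop := ∃ n0, 4 ≤ 2 ^ k * n0 + i ∧
  ∀ n, 4 ≤ 2 ^ k * n + i → ρ (2 ^ k * n0 + i + 1) ≤ ρ (2 ^ k * n + i + 1)

lemma index (j n r c : ℕ) : 2 ^ (j + 3) * n + (8 * r + c) = 8 * (2 ^ j * n + r) + c := by ring

lemma hasMin_large (j r c : ℕ) (hr : r < 2 ^ j) (hc : c < 8) : HasMin (j + 3) (8 * r + c) := by
  unfold HasMin
  simp only [index]
  have cast_le : ∀ {a b : ℚ}, a ≤ b → (a : ℝ) ≤ b := fun h => by exact_mod_cast h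
  interval_cases c
  · obtain ⟨q0, h1, h2⟩ := class_max_pos j r hr
    refine ⟨q0, by omega, fun n hn => ?_⟩
    have hn1 : 1 ≤ 2 ^ j * n + r := by omega
    rw [ρ1 _ h1, ρ1 _ hn1]
    exact one_div_le_one_div_of_le (zR_pos _ hn1) (cast_le (h2 n hn1))
  · obtain ⟨q0, h1, h2⟩ := class_min_pos j r hr
    refine ⟨q0, by omega, fun n hn => ?_⟩
    have hn1 : 1 ≤ 2 ^ j * n + r := by omega
    rw [ρ2 _ h1, ρ2 _ hn1]
    linarith [cast_le (h2 n hn1)]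
  · obtain ⟨q0, h1, h2⟩ := class_min_pos j r hr
    refine ⟨q0, by omega, fun n hn => ?_⟩
    have hn1 : 1 ≤ 2 ^ j * n + r := by omega
    rw [ρ3, ρ3]
    have h3 := one_div_le_one_div_of_le (a := (z (2 ^ j * q0 + r) : ℝ) + 1)
      (b := (z (2 ^ j * n + r) : ℝ) + 1) (by linarith [zR_nonneg (2 ^ j * q0 + r)])
      (by linarith [cast_le (h2 n hn1)])
    linarith
  · obtain ⟨q0, h1, h2⟩ := class_max_pos j r hr
    refine ⟨q0, by omega, fun n hn => ?_⟩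
    have hn1 : 1 ≤ 2 ^ j * n + r := by omega
    rw [ρ4 _ h1, ρ4 _ hn1]
    exact one_div_le_one_div_of_le (zR_pos _ hn1) (cast_le (h2 n hn1))
  · obtain ⟨q0, h2⟩ := class_min j r hr
    refine ⟨q0, by omega, fun n hn => ?_⟩
    rw [ρ5, ρ5]
    linarith [cast_le (h2 n)]
  · obtain ⟨q0, h2⟩ := class_max j r hr
    refine ⟨q0, by omega, fun n hn => ?_⟩
    rw [ρ6, ρ6]
    have h3 := one_div_le_one_div_of_le (b := (z (2 ^ j * q0 + r) : ℝ) + 1)
      (a := (z (2 ^ j * n + r) : ℝ) + 1) (by linarith [zR_nonneg (2 ^ j * n + r)])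
      (by linarith [cast_le (h2 n)])
    linarith
  · obtain ⟨q0, h2⟩ := class_max j r hr
    refine ⟨q0, by omega, fun n hn => ?_⟩
    rw [ρ7, ρ7]
    exact one_div_le_one_div_of_le (by linarith [zR_nonneg (2 ^ j * n + r)])
      (by linarith [cast_le (h2 n)])
  · obtain ⟨q0, h2⟩ := class_min_letter j r hr
    refine ⟨q0, by omega, fun n hn => ?_⟩
    rw [ρ8, ρ8]
    have := cast_le (h2 n)
    push_cast at this
    linarith

lemma hasMin_down (k i : ℕ) (h1 : HasMin (k + 1) i) (h2 : HasMin (k + 1) (i + 2 ^ k)) :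
    HasMin k i := by
  obtain ⟨n1, a1, b1⟩ := h1
  obtain ⟨n2, a2, b2⟩ := h2
  have e1 : ∀ n, 2 ^ (k + 1) * n + i = 2 ^ k * (2 * n) + i := fun n => by ring
  have e2 : ∀ n, 2 ^ (k + 1) * n + (i + 2 ^ k) = 2 ^ k * (2 * n + 1) + i := fun n => by ring
  simp only [e1] at a1 b1
  simp only [e2] at a2 b2
  rcases le_total (ρ (2 ^ k * (2 * n1) + i + 1)) (ρ (2 ^ k * (2 * n2 + 1) + i + 1)) with h | h
  · refine ⟨2 * n1, a1, fun n hn => ?_⟩
    rcases Nat.even_or_odd' n with ⟨m, rfl | rfl⟩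
    · exact b1 m hn
    · exact h.trans (b2 m hn)
  · refine ⟨2 * n2 + 1, a2, fun n hn => ?_⟩
    rcases Nat.even_or_odd' n with ⟨m, rfl | rfl⟩
    · exact h.trans (b1 m hn)
    · exact b2 m hn

lemma hasMin (k i : ℕ) (hk : 1 ≤ k) (hi : i < 2 ^ k) : HasMin k i := by
  have key : ∀ j i, i < 2 ^ (j + 3) → HasMin (j + 3) i := by
    intro j i hi
    have := hasMin_large j (i / 8) (i % 8) (by
      rw [Nat.div_lt_iff_lt_mul (by norm_num)]; rw [pow_add] at hi; omega)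
      (Nat.mod_lt _ (by norm_num))
    rwa [Nat.div_add_mod] at this
  have key2 : ∀ i, i < 4 → HasMin 2 i := fun i hi =>
    hasMin_down 2 i (key 0 i (by norm_num; omega)) (key 0 (i + 2 ^ 2) (by norm_num; omega))
  have key1 : ∀ i, i < 2 → HasMin 1 i := fun i hi =>
    hasMin_down 1 i (key2 i (by omega)) (key2 (i + 2 ^ 1) (by norm_num; omega))
  rcases Nat.lt_or_ge k 3 with h | h
  · interval_cases k
    · exact key1 i (by simpa using hi)
    · exact key2 i (by simpa using hi)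
  · obtain ⟨j, rfl⟩ : ∃ j, k = j + 3 := ⟨k - 3, by omega⟩
    exact key j i hi

lemma C_eq {k i n0 : ℕ} (h1 : 4 ≤ 2 ^ k * n0 + i)
    (h2 : ∀ n, 4 ≤ 2 ^ k * n + i → ρ (2 ^ k * n0 + i + 1) ≤ ρ (2 ^ k * n + i + 1)) :
    C k i = ρ (2 ^ k * n0 + i + 1) := by
  unfold C
  apply IsLeast.csInf_eq
  refine ⟨⟨n0, h1, rfl⟩, ?_⟩
  rintro x ⟨n, hn, rfl⟩
  exact h2 n hn

lemma C_zero (j : ℕ) : C (j + 3) 0 = 1 / z (2 ^ j * qmax j) := by
  have hpos : 1 ≤ 2 ^ j * qmax j := by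
    have := Nat.two_pow_pos j
    have := qmax_pos j
    nlinarith
  have e : ∀ n, 2 ^ (j + 3) * n + 0 = 8 * (2 ^ j * n) + 0 := fun n => by ring
  rw [C_eq (n0 := qmax j), e, ρ1 _ hpos]
  · rw [e]; omega
  · intro n hn
    rw [e] at hn
    have hn1 : 1 ≤ 2 ^ j * n := by omega
    rw [e, e, ρ1 _ hpos, ρ1 _ hn1]
    apply one_div_le_one_div_of_le (zR_pos _ hn1)
    have := w_le j n
    unfold w at this
    exact_mod_cast this

lemma z_one : z 1 = 3 / 2 := by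
  rw [z_succ, p_one]; norm_num [z]

lemma p_val (n : ℕ) : p (4 * n + 2) = 1 ∧ p (2 * n + 1) = -1 ∧ p (8 * n + 4) = -1 ∧
    p (16 * n + 8) = 1 := by
  refine ⟨?_, p_odd n, ?_, ?_⟩
  · rw [show 4 * n + 2 = 2 * (2 * n + 1) by ring, p_even _ (by omega), p_odd]; ring
  · rw [show 8 * n + 4 = 2 * (2 * (2 * n + 1)) by ring, p_even _ (by omega), p_even _ (by omega),
      p_odd]; ring
  · rw [show 16 * n + 8 = 2 * (2 * (2 * (2 * n + 1))) by ring, p_even _ (by omega),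
      p_even _ (by omega), p_even _ (by omega), p_odd]; ring

lemma p_sixteen : p 16 = -1 := by
  rw [show 16 = 2 * (2 * (2 * (2 * 1))) by norm_num, p_even _ (by omega), p_even _ (by omega),
      p_even _ (by omega), p_even _ (by omega), p_one]; ring

lemma z_four : z 4 = 83 / 64 := by
  have h2 : z 2 = 5 / 7 := by
    rw [z_succ, z_one, show p (1 + 1) = 1 from (p_val 0).1]; norm_num
  have h3 : z 3 = 26 / 19 := by
    rw [z_succ, h2, show p (2 + 1) = -1 from (p_val 1).2.1]; norm_num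
  rw [z_succ, h3, show p (3 + 1) = -1 from (p_val 0).2.2.1]; norm_num

lemma z_sixteen : z 16 = 67519091 / 52071130 := by
  have h5 : z 5 = 275 / 211 := by
    rw [z_succ, z_four, show p (4 + 1) = -1 from (p_val 2).2.1]; norm_num
  have h6 : z 6 = 486 / 697 := by
    rw [z_succ, h5, show p (5 + 1) = 1 from (p_val 1).1]; norm_num
  have h7 : z 7 = 2577 / 1880 := by
    rw [z_succ, h6, show p (6 + 1) = -1 from (p_val 3).2.1]; norm_num
  have h8 : z 8 = 4457 / 6337 := by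
    rw [z_succ, h7, show p (7 + 1) = 1 from (p_val 0).2.2.2]; norm_num
  have h9 : z 9 = 23468 / 17131 := by
    rw [z_succ, h8, show p (8 + 1) = -1 from (p_val 4).2.1]; norm_num
  have h10 : z 10 = 40599 / 57730 := by
    rw [z_succ, h9, show p (9 + 1) = 1 from (p_val 2).1]; norm_num
  have h11 : z 11 = 213789 / 156059 := by
    rw [z_succ, h10, show p (10 + 1) = -1 from (p_val 5).2.1]; norm_num
  have h12 : z 12 = 681966 / 525907 := by
    rw [z_succ, h11, show p (11 + 1) = -1 from (p_val 1).2.2.1]; norm_num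
  have h13 : z 13 = 2259687 / 1733780 := by
    rw [z_succ, h12, show p (12 + 1) = -1 from (p_val 6).2.1]; norm_num
  have h14 : z 14 = 3993467 / 5727247 := by
    rw [z_succ, h13, show p (13 + 1) = 1 from (p_val 3).1]; norm_num
  have h15 : z 15 = 21175208 / 15447961 := by
    rw [z_succ, h14, show p (14 + 1) = -1 from (p_val 7).2.1]; norm_num
  rw [z_succ, h15, show p (15 + 1) = -1 from p_sixteen]; norm_num

/-- For all `k ≥ 1` and `i < 2^k`, the infimum `C_{k,i}` is attained, is rational, and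
`|h_{2^k n+i+1}| ≥ C_{k,i} |h_{2^k n+i}|` whenever `2^k n + i ≥ 4`; moreover
`C_{2k,0} = C_{2k+1,0}` for `k ≥ 1`, and the listed values hold. -/
theorem result :
    (∀ k i : ℕ, 1 ≤ k → i < 2 ^ k →
      (∃ n : ℕ, 4 ≤ 2 ^ k * n + i ∧ C k i = ρ (2 ^ k * n + i + 1)) ∧
      (∃ q : ℚ, C k i = q) ∧
      ∀ n : ℕ, 4 ≤ 2 ^ k * n + i →
        C k i * |(h (2 ^ k * n + i) : ℝ)| ≤ |(h (2 ^ k * n + i + 1) : ℝ)|) ∧
    (∀ k : ℕ, 1 ≤ k → C (2 * k) 0 = C (2 * k + 1) 0) ∧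
    C 1 0 = 2 / 7 ∧ C 2 0 = 2 / 3 ∧ C 3 0 = 2 / 3 ∧ C 4 0 = 64 / 83 ∧ C 5 0 = 64 / 83 ∧
    C 6 0 = 52071130 / 67519091 ∧ C 7 0 = 52071130 / 67519091 := by
  have hz1 : ((z 1 : ℚ) : ℝ) = 3 / 2 := by rw [z_one]; norm_num
  have hz4 : ((z 4 : ℚ) : ℝ) = 83 / 64 := by rw [z_four]; norm_num
  have hz16 : ((z 16 : ℚ) : ℝ) = 67519091 / 52071130 := by rw [z_sixteen]; norm_num
  have c3 : C 3 0 = 2 / 3 := by
    rw [C_zero 0]; simp [qmax, hz1]
  have c4 : C 4 0 = 64 / 83 := by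
    rw [C_zero 1]; norm_num [qmax, hz4]
  have c5 : C 5 0 = 64 / 83 := by
    rw [C_zero 2]; norm_num [qmax, hz4]
  have c6 : C 6 0 = 52071130 / 67519091 := by
    rw [C_zero 3]
    have : ¬ Even 3 := by decide
    norm_num [qmax, hz16, this]
  have c7 : C 7 0 = 52071130 / 67519091 := by
    rw [C_zero 4]
    have : Even 4 := by decide
    norm_num [qmax, hz16, this]
  have c2 : C 2 0 = 2 / 3 := by
    have h9 : ρ (2 ^ 2 * 2 + 0 + 1) = 2 / 3 := by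
      have := ρ1 1 le_rfl
      rw [hz1] at this
      norm_num at this ⊢
      exact this
    rw [C_eq (n0 := 2) (by norm_num), h9]
    intro n hn
    rw [h9]
    rcases Nat.even_or_odd' n with ⟨m, rfl | rfl⟩
    · rw [show 2 ^ 2 * (2 * m) + 0 + 1 = 8 * m + 0 + 1 by ring, ρ1 m (by omega)]
      rw [div_le_div_iff₀ (by norm_num) (zR_pos m (by omega))]
      linarith [zR_le m]
    · rw [show 2 ^ 2 * (2 * m + 1) + 0 + 1 = 8 * m + 4 + 1 by ring, ρ5]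
      linarith [zR_nonneg m]
  have c1 : C 1 0 = 2 / 7 := by
    have h15 : ρ (2 ^ 1 * 7 + 0 + 1) = 2 / 7 := by
      have := ρ7 1
      rw [hz1] at this
      norm_num at this ⊢
      exact this
    rw [C_eq (n0 := 7) (by norm_num), h15]
    intro n hn
    rw [h15]
    obtain ⟨l, j, hj, rfl⟩ : ∃ l j, j < 4 ∧ n = 4 * l + j :=
      ⟨n / 4, n % 4, Nat.mod_lt _ (by norm_num), (Nat.div_add_mod n 4).symm⟩
    interval_cases j
    · rw [show 2 ^ 1 * (4 * l + 0) + 0 + 1 = 8 * l + 0 + 1 by ring, ρ1 l (by omega)]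
      rw [div_le_div_iff₀ (by norm_num) (zR_pos l (by omega))]
      linarith [zR_le l]
    · rw [show 2 ^ 1 * (4 * l + 1) + 0 + 1 = 8 * l + 2 + 1 by ring, ρ3]
      have h1 : (1 / 2 : ℚ) ≤ z l := (z_bounds l (by omega)).1
      have h2 : ((1 / 2 : ℚ) : ℝ) ≤ z l := by exact_mod_cast h1
      have h3 : 1 / ((z l : ℝ) + 1) ≤ 1 / (1 + 1 / 2) := by
        apply one_div_le_one_div_of_le (by norm_num)
        norm_num at h2 ⊢
        linarith
      norm_num at h3 ⊢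
      linarith
    · rw [show 2 ^ 1 * (4 * l + 2) + 0 + 1 = 8 * l + 4 + 1 by ring, ρ5]
      linarith [zR_nonneg l]
    · rw [show 2 ^ 1 * (4 * l + 3) + 0 + 1 = 8 * l + 6 + 1 by ring, ρ7]
      have := zR_nonneg l
      rw [div_le_div_iff₀ (by norm_num) (by linarith)]
      linarith [zR_le l]
  refine ⟨?_, ?_, c1, c2, c3, c4, c5, c6, c7⟩
  · intro k i hk hi
    obtain ⟨n0, h1, h2⟩ := hasMin k i hk hi
    have hC := C_eq h1 h2
    refine ⟨⟨n0, h1, hC⟩, ?_, ?_⟩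
    · rw [hC, ρ]
      exact ⟨|(h (2 ^ k * n0 + i + 1) : ℚ)| / |(h (2 ^ k * n0 + i + 1 - 1) : ℚ)|, by push_cast; rfl⟩
    · intro n hn
      rw [hC]
      have h3 := h2 n hn
      refine (mul_le_mul_of_nonneg_right h3 (abs_nonneg _)).trans ?_
      rw [ρ, Nat.add_sub_cancel]
      rcases eq_or_ne |(h (2 ^ k * n + i) : ℝ)| 0 with h0 | h0
      · rw [h0, mul_zero]; exact abs_nonneg _
      · rw [div_mul_cancel₀ _ h0]
  · intro k hk
    rcases Nat.lt_or_ge k 2 with h | h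
    · have : k = 1 := by omega
      subst this
      rw [show 2 * 1 = 2 by norm_num, c2, c3]
    · obtain ⟨m, rfl⟩ : ∃ m, k = m + 2 := ⟨k - 2, by omega⟩
      rw [show 2 * (m + 2) = (2 * m + 1) + 3 by ring, C_zero,
        show (2 * m + 1) + 3 + 1 = (2 * m + 2) + 3 by ring, C_zero]
      have e1 : qmax (2 * m + 1) = 2 := by
        unfold qmax
        rw [if_neg]
        rw [Nat.not_even_iff_odd]
        exact ⟨m, rfl⟩
      have e2 : qmax (2 * m + 2) = 1 := by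
        unfold qmax
        rw [if_pos]
        exact ⟨m + 1, by ring⟩
      rw [e1, e2, show 2 ^ (2 * m + 1) * 2 = 2 ^ (2 * m + 2) * 1 by ring]

end Pool.Agent.Results.MP_e68cb8_nt.Refinement
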